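import Pool.Agent.H92.EHD.TP

/-!
Row EKZ of the board ehd_modules (MP_75a732_an): induction on the codimension.
-/

set_option autoImplicit false

namespace Pool.Agent.H37.EHD

open scoped BigOperators ComplexConjugate ContDiff ComplexOrder
open MeasureTheory Pool.Agent.H92.EQ Pool.Agent.H92.EHD

theorem mixD_zero {ι : Type} [Fintype ι] [DecidableEq ι] {p m : ℕ} (h : p + m ≠ Fintype.card ι)
    (S : (Fin p → ι) → (Fin p → ι) → ℂ) (H : Fin m → Matrix ι ι ℂ) : mixD S H = 0 := by
  have h1 : IsEmpty ((Fin p ⊕ Fin m) ≃ ι) := ⟨fun e => h (by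
    have := Fintype.card_congr e
    simpa using this)⟩
  unfold mixD
  simp

theorem pair_zero {N p q : ℕ} (h : p + q + 1 ≠ N) (φ : (Fin N → ℂ) → ℝ) (S : Form (Fin N) p)
    (u : Fin q → (Fin N → ℂ) → ℝ) : pair φ S u = 0 := by
  have h1 : ∀ z, Q S u z = 0 := fun z => by
    unfold Q
    rw [mixD_zero (by rw [Fintype.card_fin]; omega)]
    simp
  unfold pair Iint
  simp [h1]

theorem meanE (hRZ : T_RZ) (k p q : ℕ) : MeanE k p q := by
  by_cases h : p + q = k
  · exact hRZ k p q h
  · refine ⟨1, one_pos, fun D Φ hD hΦ w w' u hw hw' hu S A hA hS hm hLM => ?_⟩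
    have hN : p + q + 1 ≠ k + 1 := by omega
    have h1 : ∀ M, am (fun z => w z - w' z) Φ S u M = 0 := fun M => pair_zero hN _ _ _
    have h2 : mass q (om (k + 1) p) = 0 := pair_zero hN _ _ _
    have h3 : pair (fun z => w z - w' z) (pull Φ (om (k + 1) p)) u = 0 := pair_zero hN _ _ _
    simp [h1, h2, h3]

/-- Row EKZ. -/
theorem pf_EKZ (hEKN : T_EKN) (hEKO : T_EKO) (hETZ : T_ETZ) (hRZ : T_RZ) (hELE : T_ELE) :
    T_EKZ := by
  intro k d p F 𝒦 hk hd hF hst hP
  have key : ∀ j p, k + 1 ≤ p + j → ConvE F d p 𝒦 := by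
    intro j
    induction j with
    | zero =>
      intro p hp q hq
      omega
    | succ j ih =>
      intro p hp
      by_cases h : k + 1 ≤ p
      · intro q hq
        omega
      · exact hEKO k d p F 𝒦 hk hd (by omega) hF
          (hEKN k d p F 𝒦 hk hd (by omega) hF hst (ih (p + 1) (by omega)) hP
            (fun q => hELE k p q))
          (fun q => hETZ k p q) (fun q => meanE hRZ k p q)
  exact key (k + 1) p (by omega)

end Pool.Agent.H37.EHD
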