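import Pool.Agent.H92.EHD.TK

/-!
Row EMA of the board ehd_modules (MP_75a732_an): the logarithmic mass of `S_i`.
-/

set_option autoImplicit false

namespace Pool.Agent.H37.EHD

open scoped BigOperators ComplexConjugate ContDiff ComplexOrder
open MeasureTheory Pool.Agent.H92.EQ Pool.Agent.H92.EHD

lemma pair_sub' {N p q : ℕ} (φ ψ : (Fin N → ℂ) → ℝ) (S : Form (Fin N) p)
    (u : Fin q → (Fin N → ℂ) → ℝ)
    (h1 : IntegrableOn (fun z => φ z * Q S u z) {z : Fin N → ℂ | 0 ≤ ell z ∧ ell z < 1})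
    (h2 : IntegrableOn (fun z => ψ z * Q S u z) {z : Fin N → ℂ | 0 ≤ ell z ∧ ell z < 1}) :
    pair (fun z => φ z - ψ z) S u = pair φ S u - pair ψ S u := by
  unfold pair Iint
  rw [← integral_sub h1 h2]
  congr 1
  funext z
  ring

lemma pair_lin {N p q : ℕ} (φ ψ : (Fin N → ℂ) → ℝ) (a b : ℝ) (S : Form (Fin N) p)
    (u : Fin q → (Fin N → ℂ) → ℝ)
    (h1 : IntegrableOn (fun z => φ z * Q S u z) {z : Fin N → ℂ | 0 ≤ ell z ∧ ell z < 1})
    (h2 : IntegrableOn (fun z => ψ z * Q S u z) {z : Fin N → ℂ | 0 ≤ ell z ∧ ell z < 1}) :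
    pair (fun z => a * φ z + b * ψ z) S u = a * pair φ S u + b * pair ψ S u := by
  unfold pair Iint
  rw [← integral_const_mul, ← integral_const_mul, ← integral_add (h1.const_mul a)
    (h2.const_mul b)]
  congr 1
  funext z
  ring

/-- Row EMA. -/
theorem pf_EMA (hEWH : T_EWH) (hEPB : T_EPB) (hKA : T_KA) (hKE : T_KE) (hKG2 : T_KG2)
    (hD12 : T_D12) (hP1 : T_P1) (hP3 : T_P3) (hP5 : T_P5) (hL1 : T_L1) (hL3 : T_L3) :
    T_EMA := by
  intro k d p q F hd hpq hF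
  have hd1 : 1 ≤ d := by omega
  have hN : p + q + 1 = k + 1 := by omega
  have hFH : IsH d F := hF.isH
  obtain ⟨w1, _, w3, B', hB', w4, _⟩ := hEWH k d F hd hF
  obtain ⟨g1, _, B, hB, g3, _⟩ := hKA (k + 1) d F hd hFH
  have hell : Pot (ell : (Fin (k + 1) → ℂ) → ℝ) := (hL3 (k + 1)).1
  refine ⟨(2 * q + 1) * B + B', by positivity, ?_⟩
  intro K i A S hA hS
  have hSn : ProjForm (Sn F d i S) := (hD12 (k + 1) d F hd1 hFH 0 i).2.2.2.2 p S hS.pf
  have hms : mass q (Sn F d i S) = mass q (om (k + 1) p) := by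
    rw [(hP5 (k + 1) p q d S hN hS.pf).2.1 F i hd1 hFH, hS.ms]
  have hm0 : 0 ≤ mass q (om (k + 1) p) := by
    rw [← hms]
    exact (hP5 (k + 1) p q d (Sn F d i S) hN hSn).2.2
  refine ⟨hSn, (hKG2 (k + 1) d p i F K S (fun _ => 0) hd1 hFH hS.ink).2.1, hms, ?_⟩
  intro δ hδ hδ1
  obtain ⟨δ', hδ', hδ'1, hw⟩ := w4 δ hδ hδ1 i
  -- step 1: exchange ell against Gn
  have s1 := hKE (k + 1) p q (Sn F d i S) (wH δ) ell (Gn F d i) ell B hN hSn (w1 δ hδ) hell
    (g1 i) hell (g3 i)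
  have s1' := (abs_le.1 s1).2
  -- step 2: the pointwise bound
  set f : (Fin (k + 1) → ℂ) → ℝ := fun z => ell z - wH δ' z with hf
  have hfH : Hom0 f := by
    have h1 := (hL1 (k + 1) 1 1 1 (-1) ell (wH δ')).1
      ((hL1 (k + 1) 1 1 1 1 ell ell).2.2.1 hell)
      ((hL1 (k + 1) 1 1 1 1 (wH δ') (wH δ')).2.2.1 (w1 δ' hδ'))
    have h2 : (fun z => (1 : ℝ) * ell z + -1 * wH δ' z) = f := by
      funext z
      rw [hf]
      ring
    rw [h2] at h1
    refine (hL1 (k + 1) 0 0 0 0 f (wH δ')).2.1.2 ?_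
    have h3 : (1 : ℝ) * 1 + -1 * 1 = 0 := by norm_num
    rwa [h3] at h1
  have cW : ContinuousOn (wH (k := k) δ) {0}ᶜ := (w1 δ hδ).smooth.continuousOn
  have cE : ContinuousOn (ell : (Fin (k + 1) → ℂ) → ℝ) {0}ᶜ := hell.smooth.continuousOn
  have cG : ContinuousOn (Gn F d i) {0}ᶜ := (g1 i).smooth.continuousOn
  have cV : ContinuousOn (fun z => (1 / (d : ℝ) ^ i) * wH δ' (ev (iter F i) z)) {0}ᶜ :=
    (w3 δ' i hδ').smooth.continuousOn
  have hd0 : (0 : ℝ) < (d : ℝ) ^ i := by positivity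
  have cf : ContinuousOn (fun z => f (ev (iter F i) z)) {0}ᶜ := by
    have h1 : (fun z => f (ev (iter F i) z)) = fun z => (d : ℝ) ^ i *
        (Gn F d i z - (1 / (d : ℝ) ^ i) * wH δ' (ev (iter F i) z)) := by
      funext z
      rw [hf]
      unfold Gn
      field_simp
    rw [h1]
    exact continuousOn_const.mul (cG.sub cV)
  have hLH : ∀ j : Fin q, LH ((fun _ : Fin q => (1 : ℝ)) j)
      ((fun _ : Fin q => (Gn F d i : (Fin (k + 1) → ℂ) → ℝ)) j) := fun j =>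
    (hL1 (k + 1) 1 1 1 1 (Gn F d i) ell).2.2.1 (g1 i)
  have hP1' := (hP1 (k + 1) p q (Sn F d i S) (fun _ => Gn F d i) (fun _ => 1) hN hSn hLH).2
  have i1 := hP1' (fun z => ell z - wH δ z) (cE.sub cW)
  have i2 := hP1' (fun z => f (ev (iter F i) z)) cf
  have i3 := hP1' (fun _ => (1 : ℝ)) continuousOn_const
  have i4 := hP1' (fun z => (1 / (d : ℝ) ^ i) * f (ev (iter F i) z) + (B + B') * 1)
    ((continuousOn_const.mul cf).add continuousOn_const)
  have hPos := hP3 (k + 1) p q (Sn F d i S) (fun _ => Gn F d i) hN hSn (fun _ => g1 i)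
  have s2 : 0 ≤ pair (fun z => ((1 / (d : ℝ) ^ i) * f (ev (iter F i) z) + (B + B') * 1) -
      (ell z - wH δ z)) (Sn F d i S) (fun _ : Fin q => Gn F d i) := by
    refine hPos.2.1 _ ?_
    intro z hz
    have h1 := abs_le.1 (g3 i z hz)
    have h2 := abs_le.1 (hw z hz)
    have h3 : (1 / (d : ℝ) ^ i) * f (ev (iter F i) z) =
        Gn F d i z - (1 / (d : ℝ) ^ i) * wH δ' (ev (iter F i) z) := by
      rw [hf]
      unfold Gn
      ring
    rw [h3]
    linarith [h1.1, h1.2, h2.1, h2.2]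
  rw [pair_sub' (fun z => (1 / (d : ℝ) ^ i) * f (ev (iter F i) z) + (B + B') * 1)
    (fun z => ell z - wH δ z) (Sn F d i S) (fun _ : Fin q => Gn F d i) i4 i1,
    pair_lin (fun z => f (ev (iter F i) z)) (fun _ => (1 : ℝ)) (1 / (d : ℝ) ^ i) (B + B')
      (Sn F d i S) (fun _ : Fin q => Gn F d i) i2 i3, hPos.2.2.1, hms,
    hEPB (k + 1) d p q i F S f hd hN hFH hS.pf hfH] at s2
  have s3 := hS.lm δ' hδ' hδ'1
  have s4 : (1 / (d : ℝ) ^ i) * pair f S (fun _ : Fin q => ell) ≤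
      (1 / (d : ℝ) ^ i) * (A * mass q (om (k + 1) p)) :=
    mul_le_mul_of_nonneg_left s3 (by positivity)
  rw [hms] at s1'
  have s5 : (A / (d : ℝ) ^ i + ((2 * q + 1) * B + B')) * mass q (om (k + 1) p) =
      (1 / (d : ℝ) ^ i) * (A * mass q (om (k + 1) p)) + (B + B') * mass q (om (k + 1) p) +
        2 * q * B * mass q (om (k + 1) p) := by
    ring
  rw [s5]
  linarith

end Pool.Agent.H37.EHD
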